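import Pool.Agent.Helper11.KS.Sheet
import Pool.Agent.H11ST.Asm
import Pool.Agent.Helper73.ST.Core
import Pool.Agent.Helper94.ST.Flux
import Pool.Agent.Helper27.ST.Ph
open MeasureTheory Metric Set Filter Topology Real
open scoped ENNReal NNReal

/-!
Row SEP of project KS.
-/

namespace H11ST
namespace KS
open NH

/-- separation from the absence of two tripod points in the smaller disc -/
theorem sep_of_noTwo {t : ℝ} (h : NoTwo t) : Sep t := by
  intro A S x r L hA y y' hne hyb hyb' hT hT'
  by_contra hcon
  push Not at hcon
  set m := midpoint ℝ y y' with hm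
  have hmb : m ∈ ball x r := (convex_ball x r).segment_subset hyb hyb' (midpoint_mem_segment _ _)
  have hR : 0 < r - dist m x := by rw [mem_ball] at hmb; linarith
  set R := r - dist m x with hRdef
  have L' : LocAdm A S m R := L.restrict hR (by
    intro v hv
    rw [mem_ball] at hv ⊢
    have := dist_triangle v m x
    linarith)
  have hym : dist y m = dist y y' / 2 := by
    rw [hm, dist_left_midpoint, Real.norm_of_nonneg (by norm_num)]; ring
  have hym' : dist y' m = dist y y' / 2 := by
    rw [hm, dist_right_midpoint, Real.norm_of_nonneg (by norm_num)]; ring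
  refine h A S m R L' hA y y' hne ?_ ?_ hT hT'
  · rw [mem_ball, hym]; exact hcon
  · rw [mem_ball, hym']; exact hcon

/-- **row SEP** -/
theorem ks_sep : KS_SEP := by
  refine ⟨fun t _ _ h => sep_of_noTwo h, ?_⟩
  intro A S x r L hA y y' hne hyb hyb' hT hT'
  have hgi : ST_GI 2 := gi 2 (Pool.Agent.Helper73.ST.core 2)
  have hfl : ST_FLUX := flux (Pool.Agent.Helper73.ST.core 2)
  have h1 := sep hgi hfl (τ := 1301 / 10000) (by norm_num) Ph.ph_2b L hA hne hyb hyb' hT hT'
  have hmb : midpoint ℝ y y' ∈ ball x r :=
    (convex_ball x r).segment_subset hyb hyb' (midpoint_mem_segment _ _)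
  rw [mem_ball] at hmb
  nlinarith

end KS
end H11ST
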